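import Pool.Agent.Q181.Cubic.Key

/-! MP_a4f165_gt, Q1 and Q2: with `s(r) = (2r+2)^(r (r+2)^⌊r/2⌋)` one has `E^1_{p,q}(n,r) = 0` for
all `n` and all `p > s(r)`, `q`, over every field. -/

set_option autoImplicit false

universe u

namespace Pool.Agent.Results.MP_a4f165_gt.LateColumnsVanish

open Q181.Cubic

/-- `E^1_{p,q}(n,r) = 0`: the complex `E^0_{p,•}` is exact in total degree `d = p + q` (nothing is
required if `p + q < 0`). The chains of total degree `d` are the functions with values in `𝕜` on
the `d`-simplices of the Vietoris-Rips complex of cubic dimension exactly `p`; the differential is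
the simplicial boundary (oriented by the numbering `pos` of the vertices), with the faces of
smaller cubic dimension discarded. -/
def E1Vanishes (𝕜 : Type u) [Field 𝕜] (n r : ℕ) (pos : (Fin n → Bool) → ℕ) (p : ℕ) (q : ℤ) :
    Prop :=
  ∀ d : ℕ, (d : ℤ) = (p : ℤ) + q →
    ∀ f : Finset (Fin n → Bool) → 𝕜, IsCh (ColSimplex r p) d f →
      bd pos (ColSimplex r p) f = 0 →
      ∃ g : Finset (Fin n → Bool) → 𝕜, IsCh (ColSimplex r p) (d + 1) g ∧
        bd pos (ColSimplex r p) g = f

/-- The explicit bound. -/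
def s (r : ℕ) : ℕ := (2 * r + 2) ^ (r * (r + 2) ^ (r / 2))

theorem result (𝕜 : Type u) [Field 𝕜] (n r : ℕ) (pos : (Fin n → Bool) → ℕ)
    (hpos : Function.Injective pos) (p : ℕ) (q : ℤ) (hp : s r < p) :
    E1Vanishes 𝕜 n r pos p q :=
  fun d _ f hf hbd => column_exact pos hpos hp d f hf hbd

end Pool.Agent.Results.MP_a4f165_gt.LateColumnsVanish
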